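import Pool.Agent.W313.HB.Stm

/-!
# From the product measure to natural density (project HB)
-/

set_option autoImplicit false
set_option linter.all false

namespace Pool.Agent.W723.HB

open Finset Pool.Agent.W313.HB

theorem sum_le_inj {ι κ : Type} (s : Finset ι) (t : Finset κ) (φ : ι → κ) (f : ι → ℝ)
    (g : κ → ℝ) (hφ : ∀ i ∈ s, φ i ∈ t) (hinj : Set.InjOn φ s) (hfg : ∀ i ∈ s, f i ≤ g (φ i))
    (hg : ∀ k ∈ t, 0 ≤ g k) : ∑ i ∈ s, f i ≤ ∑ k ∈ t, g k := by
  classical
  calc ∑ i ∈ s, f i ≤ ∑ i ∈ s, g (φ i) := Finset.sum_le_sum hfg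
    _ = ∑ k ∈ s.image φ, g k := (Finset.sum_image hinj).symm
    _ ≤ ∑ k ∈ t, g k := by
        apply Finset.sum_le_sum_of_subset_of_nonneg
        · intro k hk
          obtain ⟨i, hi, rfl⟩ := Finset.mem_image.1 hk
          exact hφ i hi
        · intro k hk _
          exact hg k hk

theorem mem_Pr {x p : ℕ} : p ∈ (Icc 1 x).filter Nat.Prime ↔ p ≤ x ∧ p.Prime := by
  rw [Finset.mem_filter, Finset.mem_Icc]
  constructor
  · rintro ⟨⟨_, h⟩, h2⟩
    exact ⟨h, h2⟩
  · rintro ⟨h, h2⟩
    exact ⟨⟨h2.one_lt.le, h⟩, h2⟩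

theorem sm_mul {y p b : ℕ} (hp : p.Prime) (hy : y < p) (hb : b ≠ 0) : sm y (p * b) = sm y b := by
  unfold sm
  rw [Nat.primeFactors_mul hp.ne_zero hb, hp.primeFactors, Finset.filter_union]
  have : ({p} : Finset ℕ).filter (fun q => q ≤ y) = ∅ := by
    rw [Finset.filter_singleton, if_neg (by omega)]
  rw [this, Finset.empty_union]

theorem sm_dvd (y a : ℕ) : sm y a ∣ primorial y := by
  unfold sm primorial
  apply Finset.prod_dvd_prod_of_subset
  intro p hp
  rw [Finset.mem_filter] at hp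
  rw [Finset.mem_filter, Finset.mem_range]
  exact ⟨by omega, Nat.prime_of_mem_primeFactors hp.1⟩

/-- the prime factors larger than `y` -/
def big (y a : ℕ) : Finset ℕ := a.primeFactors.filter (fun p => ¬ p ≤ y)

theorem sm_mul_big {y a : ℕ} (ha : Squarefree a) : sm y a * ∏ p ∈ big y a, p = a := by
  unfold sm big
  rw [Finset.prod_filter_mul_prod_filter_not]
  exact Nat.prod_primeFactors_of_squarefree ha

theorem sm_pos (y a : ℕ) : 0 < sm y a :=
  Finset.prod_pos fun p hp => (Nat.prime_of_mem_primeFactors (Finset.mem_filter.1 hp).1).pos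

/-- the sum of the logarithms of the prime factors -/
theorem log_eq {y a : ℕ} (ha : Squarefree a) : Real.log a =
    ∑ p ∈ a.primeFactors.filter (fun p => p ≤ y), Real.log p + ∑ p ∈ big y a, Real.log p := by
  unfold big
  rw [Finset.sum_filter_add_sum_filter_not]
  have h1 : (a : ℝ) = ∏ p ∈ a.primeFactors, (p : ℝ) := by
    rw [← Nat.cast_prod, Nat.prod_primeFactors_of_squarefree ha]
  conv_lhs => rw [h1]
  rw [Real.log_prod]
  intro p hp
  have := (Nat.prime_of_mem_primeFactors hp).pos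
  positivity

section

variable (Bad : ℕ → Prop) (y A : ℕ)

open Classical in
/-- the bad numbers -/
noncomputable def BB : Finset ℕ := (Icc 1 A).filter (fun a : ℕ => Squarefree a ∧ Bad (sm y a))

theorem mem_BB {a : ℕ} : a ∈ BB Bad y A ↔ (1 ≤ a ∧ a ≤ A) ∧ Squarefree a ∧ Bad (sm y a) := by
  classical
  unfold BB
  rw [Finset.mem_filter, Finset.mem_Icc]

open Classical in
theorem sum_inv (hy : y ≤ A) : ∑ b ∈ BB Bad y A, 1 / (b : ℝ) ≤
    ms y Bad * ∏ p ∈ (Icc 1 A).filter Nat.Prime, (1 + 1 / (p : ℝ)) := by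
  set P : Finset ℕ := ((Icc 1 A).filter Nat.Prime).filter (fun p => ¬ p ≤ y) with hP
  have hsplit : ∏ p ∈ (Icc 1 A).filter Nat.Prime, (1 + 1 / (p : ℝ)) =
      (∏ p ∈ (Icc 1 y).filter Nat.Prime, (1 + 1 / (p : ℝ))) * ∏ p ∈ P, (1 + 1 / (p : ℝ)) := by
    rw [hP, ← Finset.prod_filter_mul_prod_filter_not ((Icc 1 A).filter Nat.Prime)
      (fun p => p ≤ y)]
    congr 1
    apply Finset.prod_congr _ fun _ _ => rfl
    ext p
    rw [Finset.mem_filter, mem_Pr, mem_Pr]
    constructor
    · rintro ⟨⟨_, h2⟩, h3⟩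
      exact ⟨h3, h2⟩
    · rintro ⟨h1, h2⟩
      exact ⟨⟨h1.trans hy, h2⟩, h1⟩
  have hpos : 0 < ∏ p ∈ (Icc 1 y).filter Nat.Prime, (1 + 1 / (p : ℝ)) :=
    Finset.prod_pos fun p _ => by positivity
  have hms : ms y Bad * ∏ p ∈ (Icc 1 A).filter Nat.Prime, (1 + 1 / (p : ℝ)) =
      (∑ s ∈ (primorial y).divisors.filter Bad, 1 / (s : ℝ)) * ∏ p ∈ P, (1 + 1 / (p : ℝ)) := by
    rw [hsplit]
    unfold ms
    rw [← mul_assoc, div_mul_cancel₀ _ hpos.ne']
  rw [hms, Finset.prod_one_add, Finset.sum_mul_sum, ← Finset.sum_product']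
  apply sum_le_inj (BB Bad y A) _ (fun b => (sm y b, big y b)) (fun b => 1 / (b : ℝ))
    (fun x : ℕ × Finset ℕ => 1 / (x.1 : ℝ) * ∏ p ∈ x.2, 1 / (p : ℝ))
  · intro b hb
    rw [mem_BB] at hb
    rw [Finset.mem_product]
    refine ⟨?_, ?_⟩
    · rw [Finset.mem_filter, Nat.mem_divisors]
      exact ⟨⟨sm_dvd y b, primorial_ne_zero y⟩, hb.2.2⟩
    · rw [Finset.mem_powerset]
      intro p hp
      unfold big at hp
      rw [Finset.mem_filter] at hp
      rw [hP, Finset.mem_filter, mem_Pr]
      have h1 := Nat.dvd_of_mem_primeFactors hp.1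
      exact ⟨⟨(Nat.le_of_dvd (by omega) h1).trans hb.1.2, Nat.prime_of_mem_primeFactors hp.1⟩,
        hp.2⟩
  · intro b hb c hc h
    have hb' := (mem_BB Bad y A).1 hb
    have hc' := (mem_BB Bad y A).1 hc
    rw [← sm_mul_big (y := y) hb'.2.1, ← sm_mul_big (y := y) hc'.2.1]
    have h1 : sm y b = sm y c := congrArg Prod.fst h
    have h2 : big y b = big y c := congrArg Prod.snd h
    rw [h1, h2]
  · intro b hb
    have hb' := (mem_BB Bad y A).1 hb
    apply le_of_eq
    have h1 : (b : ℝ) = (sm y b : ℝ) * ∏ p ∈ big y b, (p : ℝ) := by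
      rw [← Nat.cast_prod, ← Nat.cast_mul, sm_mul_big hb'.2.1]
    show 1 / (b : ℝ) = 1 / (sm y b : ℝ) * ∏ p ∈ big y b, 1 / (p : ℝ)
    conv_lhs => rw [h1]
    rw [Finset.prod_div_distrib, Finset.prod_const_one, div_mul_div_comm, one_mul]
  · intro x _
    apply mul_nonneg (by positivity)
    exact Finset.prod_nonneg fun p _ => by positivity

open Classical in
theorem sum_small : ∑ a ∈ BB Bad y A, ∑ p ∈ a.primeFactors.filter (fun p => p ≤ y), Real.log p ≤
    A * ∑ p ∈ (Icc 1 y).filter Nat.Prime, Real.log p / p := by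
  have h1 : ∀ a ∈ BB Bad y A, ∑ p ∈ a.primeFactors.filter (fun p => p ≤ y), Real.log p =
      ∑ p ∈ (Icc 1 y).filter Nat.Prime, if p ∣ a then Real.log p else 0 := by
    intro a ha
    have ha' := (mem_BB Bad y A).1 ha
    rw [← Finset.sum_filter]
    apply Finset.sum_congr _ fun _ _ => rfl
    ext p
    rw [Finset.mem_filter, Finset.mem_filter, mem_Pr, Nat.mem_primeFactors]
    constructor
    · rintro ⟨⟨h1, h2, h3⟩, h4⟩
      exact ⟨⟨h4, h1⟩, h2⟩
    · rintro ⟨⟨h1, h2⟩, h3⟩
      exact ⟨⟨h2, h3, by omega⟩, h1⟩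
  rw [Finset.sum_congr rfl h1, Finset.sum_comm, Finset.mul_sum]
  apply Finset.sum_le_sum
  intro p hp
  have hpp := (mem_Pr.1 hp).2
  rw [← Finset.sum_filter, Finset.sum_const, nsmul_eq_mul]
  have h2 : (((BB Bad y A).filter (fun a => p ∣ a)).card : ℝ) ≤ (A : ℝ) / p := by
    have h3 : (BB Bad y A).filter (fun a => p ∣ a) ⊆ (Ioc 0 A).filter (fun a => p ∣ a) := by
      intro a ha
      rw [Finset.mem_filter, mem_BB] at ha
      rw [Finset.mem_filter, Finset.mem_Ioc]
      exact ⟨⟨by omega, ha.1.1.2⟩, ha.2⟩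
    have h4 := Finset.card_le_card h3
    rw [Nat.Ioc_filter_dvd_card_eq_div] at h4
    calc (((BB Bad y A).filter (fun a => p ∣ a)).card : ℝ) ≤ ((A / p : ℕ) : ℝ) := by
          exact_mod_cast h4
      _ ≤ (A : ℝ) / p := Nat.cast_div_le
  have h5 : 0 ≤ Real.log p := Real.log_nonneg (by exact_mod_cast hpp.one_lt.le)
  calc (((BB Bad y A).filter (fun a => p ∣ a)).card : ℝ) * Real.log p ≤
      (A : ℝ) / p * Real.log p := mul_le_mul_of_nonneg_right h2 h5
    _ = A * (Real.log p / p) := by ring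

theorem theta_nat (n : ℕ) : ∑ p ∈ (Icc 1 n).filter Nat.Prime, Real.log p ≤
    Real.log 4 * (n : ℝ) := by
  have h := Chebyshev.theta_le_log4_mul_x (x := (n : ℝ)) (Nat.cast_nonneg n)
  rw [Chebyshev.theta, Nat.floor_natCast] at h
  refine le_trans (le_of_eq ?_) h
  apply Finset.sum_congr _ fun _ _ => rfl
  ext p
  rw [mem_Pr, Finset.mem_filter, Finset.mem_Ioc]
  constructor
  · rintro ⟨h, h2⟩
    exact ⟨⟨h2.pos, h⟩, h2⟩
  · rintro ⟨⟨_, h⟩, h2⟩
    exact ⟨h, h2⟩

open Classical in
theorem sum_big : ∑ a ∈ BB Bad y A, ∑ p ∈ big y a, Real.log p ≤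
    Real.log 4 * A * ∑ b ∈ BB Bad y A, 1 / (b : ℝ) := by
  have h1 : ∑ a ∈ BB Bad y A, ∑ p ∈ big y a, Real.log p ≤
      ∑ b ∈ BB Bad y A, ∑ p ∈ (Icc 1 (A / b)).filter Nat.Prime, Real.log p := by
    rw [Finset.sum_sigma', Finset.sum_sigma']
    apply sum_le_inj _ _ (fun x : (Σ _ : ℕ, ℕ) => (⟨x.1 / x.2, x.2⟩ : Σ _ : ℕ, ℕ))
      (fun x : (Σ _ : ℕ, ℕ) => Real.log (x.2 : ℝ)) (fun x : (Σ _ : ℕ, ℕ) => Real.log (x.2 : ℝ))
    · rintro ⟨a, p⟩ hx
      rw [Finset.mem_sigma] at hx
      obtain ⟨ha, hp⟩ := hx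
      have ha' := (mem_BB Bad y A).1 ha
      unfold big at hp
      rw [Finset.mem_filter] at hp
      have hpp : p.Prime := Nat.prime_of_mem_primeFactors hp.1
      have hyp : y < p := not_le.1 hp.2
      obtain ⟨b, hb⟩ := Nat.dvd_of_mem_primeFactors hp.1
      have hb' : a / p = b := by
        rw [show a = p * b from hb]
        exact Nat.mul_div_cancel_left b hpp.pos
      have hb0 : b ≠ 0 := by
        rintro rfl
        have : a = 0 := by simpa using hb
        omega
      rw [Finset.mem_sigma]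
      simp only
      rw [hb', mem_BB, mem_Pr]
      have hba : b ≤ a := by
        rw [show a = p * b from hb]
        exact Nat.le_mul_of_pos_left b hpp.pos
      refine ⟨⟨⟨Nat.pos_of_ne_zero hb0, hba.trans ha'.1.2⟩, ?_, ?_⟩, ?_, hpp⟩
      · have : Squarefree (p * b) := hb ▸ ha'.2.1
        exact this.of_mul_right
      · have h3 := ha'.2.2
        rw [show a = p * b from hb, sm_mul hpp hyp hb0] at h3
        exact h3
      · rw [Nat.le_div_iff_mul_le (Nat.pos_of_ne_zero hb0), ← show a = p * b from hb]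
        exact ha'.1.2
    · rintro ⟨a, p⟩ hx ⟨a', p'⟩ hx' h
      have hx1 := Finset.mem_sigma.1 (Finset.mem_coe.1 hx)
      have hx2 := Finset.mem_sigma.1 (Finset.mem_coe.1 hx')
      simp only [Sigma.mk.injEq, heq_eq_eq] at h
      obtain ⟨h1, h2⟩ := h
      simp only at hx1 hx2
      subst h2
      have d1 : p ∣ a := Nat.dvd_of_mem_primeFactors (Finset.mem_filter.1 hx1.2).1
      have d2 : p ∣ a' := Nat.dvd_of_mem_primeFactors (Finset.mem_filter.1 hx2.2).1
      have : a = a' := by
        rw [← Nat.div_mul_cancel d1, ← Nat.div_mul_cancel d2, h1]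
      rw [this]
    · intro x _
      exact le_rfl
    · intro x hx
      rw [Finset.mem_sigma, mem_Pr] at hx
      exact Real.log_nonneg (by exact_mod_cast hx.2.2.one_lt.le)
  refine h1.trans ?_
  rw [Finset.mul_sum]
  apply Finset.sum_le_sum
  intro b hb
  refine (theta_nat (A / b)).trans ?_
  have h2 : ((A / b : ℕ) : ℝ) ≤ (A : ℝ) / b := Nat.cast_div_le
  have h3 : 0 ≤ Real.log 4 := Real.log_nonneg (by norm_num)
  calc Real.log 4 * ((A / b : ℕ) : ℝ) ≤ Real.log 4 * ((A : ℝ) / b) :=
        mul_le_mul_of_nonneg_left h2 h3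
    _ = Real.log 4 * A * (1 / (b : ℝ)) := by ring

end

open Classical in
theorem ms_nonneg (y : ℕ) (Bad : ℕ → Prop) : 0 ≤ ms y Bad := by
  unfold ms
  apply div_nonneg
  · exact Finset.sum_nonneg fun s _ => by positivity
  · exact Finset.prod_nonneg fun s _ => by positivity

/-- Part TRANS. -/
theorem trans_ (h1 : S_MERT) (h2 : S_EULER) : S_TRANS := by
  classical
  obtain ⟨C1, hC1, hM⟩ := h1
  obtain ⟨C2, hC2, hE⟩ := h2
  have hl2 : 0 < Real.log 2 := Real.log_pos (by norm_num)
  have hl4 : 0 < Real.log 4 := Real.log_pos (by norm_num)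
  refine ⟨2 + 2 * C1 + 2 * Real.log 4 * C2 * (1 + 1 / Real.log 2), by positivity, ?_⟩
  intro Bad y A hy hA
  set C : ℝ := 2 + 2 * C1 + 2 * Real.log 4 * C2 * (1 + 1 / Real.log 2) with hC
  have hC0 : 2 * Real.log 4 * C2 * (1 + 1 / Real.log 2) ≥ 0 := by positivity
  have hAr : (2 : ℝ) ≤ A := by exact_mod_cast hA
  have hyr : (1 : ℝ) ≤ y := by exact_mod_cast hy
  have hlA : 0 < Real.log A := Real.log_pos (by linarith)
  have hlA2 : Real.log 2 ≤ Real.log A := Real.log_le_log (by norm_num) hAr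
  have hly : 0 ≤ Real.log y := Real.log_nonneg hyr
  have hms := ms_nonneg y Bad
  change ((BB Bad y A).card : ℝ) ≤ _
  have hcardA : ((BB Bad y A).card : ℝ) ≤ A := by
    have : (BB Bad y A).card ≤ (Icc 1 A).card := Finset.card_le_card (Finset.filter_subset _ _)
    rw [Nat.card_Icc] at this
    exact_mod_cast this.trans (by omega)
  have hsq : 0 ≤ √(A : ℝ) := Real.sqrt_nonneg _
  have hCAm : 0 ≤ C * A * ms y Bad := by
    have : 0 ≤ C := by rw [hC]; positivity
    positivity
  by_cases hyA : A ≤ y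
  · have h3 : Real.log A ≤ Real.log y := Real.log_le_log (by linarith) (by exact_mod_cast hyA)
    have h4 : (A : ℝ) ≤ C * A * (1 + Real.log y) / Real.log A := by
      rw [le_div_iff₀ hlA]
      have h5 : Real.log A ≤ C * (1 + Real.log y) := by
        have : 1 * (1 + Real.log y) ≤ C * (1 + Real.log y) :=
          mul_le_mul_of_nonneg_right (by rw [hC]; linarith) (by linarith)
        linarith
      calc (A : ℝ) * Real.log A ≤ A * (C * (1 + Real.log y)) :=
            mul_le_mul_of_nonneg_left h5 (by linarith)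
        _ = C * A * (1 + Real.log y) := by ring
    linarith
  · push Not at hyA
    -- the sum of the logarithms
    have hS : ∑ a ∈ BB Bad y A, Real.log a ≤
        A * (Real.log y + C1) + Real.log 4 * A * (ms y Bad * (C2 * (1 + Real.log A))) := by
      have e1 : ∑ a ∈ BB Bad y A, Real.log a =
          ∑ a ∈ BB Bad y A, ∑ p ∈ a.primeFactors.filter (fun p => p ≤ y), Real.log p +
          ∑ a ∈ BB Bad y A, ∑ p ∈ big y a, Real.log p := by
        rw [← Finset.sum_add_distrib]
        exact Finset.sum_congr rfl fun a ha => log_eq ((mem_BB Bad y A).1 ha).2.1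
      rw [e1]
      apply add_le_add
      · exact (sum_small Bad y A).trans (mul_le_mul_of_nonneg_left (hM y hy) (by linarith))
      · refine (sum_big Bad y A).trans (mul_le_mul_of_nonneg_left ?_ (by positivity))
        exact (sum_inv Bad y A hyA.le).trans (mul_le_mul_of_nonneg_left (hE A (by omega)) hms)
    -- the small elements and the large elements
    have hcard : ((BB Bad y A).card : ℝ) ≤ √(A : ℝ) +
        ∑ a ∈ BB Bad y A, 2 / Real.log A * Real.log a := by
      have e2 : (BB Bad y A).card = ((BB Bad y A).filter (fun a : ℕ => (a : ℝ) ≤ √(A : ℝ))).card +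
          ((BB Bad y A).filter (fun a : ℕ => ¬ (a : ℝ) ≤ √(A : ℝ))).card :=
        (Finset.card_filter_add_card_filter_not _).symm
      rw [e2, Nat.cast_add]
      apply add_le_add
      · have h3 : (BB Bad y A).filter (fun a : ℕ => (a : ℝ) ≤ √(A : ℝ)) ⊆ Icc 1 ⌊√(A : ℝ)⌋₊ := by
          intro a ha
          rw [Finset.mem_filter, mem_BB] at ha
          rw [Finset.mem_Icc]
          exact ⟨ha.1.1.1, Nat.le_floor ha.2⟩
        have h4 := Finset.card_le_card h3
        rw [Nat.card_Icc, Nat.add_sub_cancel] at h4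
        calc (((BB Bad y A).filter (fun a : ℕ => (a : ℝ) ≤ √(A : ℝ))).card : ℝ) ≤
            ((⌊√(A : ℝ)⌋₊ : ℕ) : ℝ) := by exact_mod_cast h4
          _ ≤ √(A : ℝ) := Nat.floor_le hsq
      · have h5 : ∀ a ∈ BB Bad y A, 0 ≤ 2 / Real.log A * Real.log a := by
          intro a ha
          have := ((mem_BB Bad y A).1 ha).1.1
          have h6 : 0 ≤ Real.log a := Real.log_nonneg (by exact_mod_cast this)
          positivity
        calc (((BB Bad y A).filter (fun a : ℕ => ¬ (a : ℝ) ≤ √(A : ℝ))).card : ℝ)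
            = ∑ a ∈ (BB Bad y A).filter (fun a : ℕ => ¬ (a : ℝ) ≤ √(A : ℝ)), (1 : ℝ) := by simp
          _ ≤ ∑ a ∈ (BB Bad y A).filter (fun a : ℕ => ¬ (a : ℝ) ≤ √(A : ℝ)),
              2 / Real.log A * Real.log a := by
                apply Finset.sum_le_sum
                intro a ha
                rw [Finset.mem_filter] at ha
                have h7 : √(A : ℝ) < a := not_le.1 ha.2
                have h8 : Real.log (√(A : ℝ)) ≤ Real.log a :=
                  Real.log_le_log (Real.sqrt_pos.2 (by linarith)) h7.le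
                rw [Real.log_sqrt (by linarith)] at h8
                rw [div_mul_eq_mul_div, le_div_iff₀ hlA]
                linarith
          _ ≤ ∑ a ∈ BB Bad y A, 2 / Real.log A * Real.log a :=
              Finset.sum_le_sum_of_subset_of_nonneg (Finset.filter_subset _ _)
                fun a ha _ => h5 a ha
    rw [← Finset.mul_sum] at hcard
    have h9 : 2 / Real.log A * ∑ a ∈ BB Bad y A, Real.log a ≤
        2 / Real.log A * (A * (Real.log y + C1) +
          Real.log 4 * A * (ms y Bad * (C2 * (1 + Real.log A)))) :=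
      mul_le_mul_of_nonneg_left hS (by positivity)
    have h10 : 2 / Real.log A * (A * (Real.log y + C1)) ≤
        (2 + 2 * C1) * A * (1 + Real.log y) / Real.log A := by
      rw [div_mul_eq_mul_div]
      apply div_le_div_of_nonneg_right _ hlA.le
      have : Real.log y + C1 ≤ (1 + C1) * (1 + Real.log y) := by nlinarith
      nlinarith
    have h11 : 2 / Real.log A * (Real.log 4 * A * (ms y Bad * (C2 * (1 + Real.log A)))) ≤
        (2 * Real.log 4 * C2 * (1 + 1 / Real.log 2)) * A * ms y Bad := by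
      have h12 : (1 + Real.log A) / Real.log A ≤ 1 + 1 / Real.log 2 := by
        rw [add_div, div_self hlA.ne', add_comm]
        have := one_div_le_one_div_of_le hl2 hlA2
        linarith
      calc 2 / Real.log A * (Real.log 4 * A * (ms y Bad * (C2 * (1 + Real.log A))))
          = (2 * Real.log 4 * C2 * A * ms y Bad) * ((1 + Real.log A) / Real.log A) := by ring
        _ ≤ (2 * Real.log 4 * C2 * A * ms y Bad) * (1 + 1 / Real.log 2) :=
            mul_le_mul_of_nonneg_left h12 (by positivity)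
        _ = _ := by ring
    have h13 : C * A * (1 + Real.log y) / Real.log A + C * A * ms y Bad ≥
        (2 + 2 * C1) * A * (1 + Real.log y) / Real.log A +
          (2 * Real.log 4 * C2 * (1 + 1 / Real.log 2)) * A * ms y Bad := by
      apply add_le_add
      · apply div_le_div_of_nonneg_right _ hlA.le
        apply mul_le_mul_of_nonneg_right _ (by linarith)
        apply mul_le_mul_of_nonneg_right _ (by linarith)
        rw [hC]; linarith
      · apply mul_le_mul_of_nonneg_right _ hms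
        apply mul_le_mul_of_nonneg_right _ (by linarith)
        rw [hC]; linarith
    rw [mul_add] at h9
    linarith

end Pool.Agent.W723.HB
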